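import Pool.Agent.Helper14.BSC.Stmts

/-!
# MP_8312c9_nt, module HEN: one-units of the fixed field are `n`-th powers
-/

set_option autoImplicit false

namespace Pool.Agent.Helper14.BSC

theorem hen_near {Ω : Type} [Field Ω] (W : ValuationSubring Ω) {x : Ω}
    (h : W.valuation (1 - x) < 1) : W.valuation x = 1 := by
  have h1 : W.valuation (1 - (1 - x)) = 1 := Valuation.map_one_sub_of_lt _ h
  rwa [sub_sub_cancel] at h1

/-- an automorphism which preserves `W` preserves the maximal ideal -/
theorem hen_inv {Ω : Type} [Field Ω] (W : ValuationSubring Ω) (g : Ω ≃+* Ω)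
    (hg : ∀ x, g x ∈ W ↔ x ∈ W) (x : Ω) (hx : W.valuation x < 1) : W.valuation (g x) < 1 := by
  by_cases h0 : x = 0
  · rw [h0, map_zero, map_zero]
    exact zero_lt_one
  have h1 : x⁻¹ ∉ W := by
    intro h
    have h2 := (W.valuation_le_one_iff _).2 h
    rw [map_inv₀] at h2
    have h3 : W.valuation x ≠ 0 := (Valuation.ne_zero_iff _).2 h0
    have h4 : 1 ≤ W.valuation x := by
      rw [← inv_le_one₀ (zero_lt_iff.2 h3)]
      exact h2
    exact not_lt.2 h4 hx
  have h2 : (g x)⁻¹ ∉ W := by
    rw [← map_inv₀, hg]
    exact h1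
  by_contra h3
  push Not at h3
  apply h2
  rw [← W.valuation_le_one_iff, map_inv₀]
  exact inv_le_one_of_one_le₀ h3

/-- **Module HEN.** -/
theorem st_HEN : ST_HEN := by
  intro k Ω _ _ _ _ _ D W hk hinv x hx n hn
  classical
  have : CharZero Ω := charZero_of_injective_algebraMap (algebraMap k Ω).injective
  -- a root close to one
  let P : Polynomial Ω := Polynomial.X ^ n - Polynomial.C (x : Ω)
  have hmon : P.Monic := Polynomial.monic_X_pow_sub_C _ hn.ne'
  have hsplit := IsAlgClosed.splits P
  have hprod : P = (P.roots.map fun a => Polynomial.X - Polynomial.C a).prod := by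
    have := hsplit.eq_prod_roots
    rwa [hmon.leadingCoeff, map_one, one_mul] at this
  have heval : 1 - (x : Ω) = (P.roots.map fun a => 1 - a).prod := by
    have h1 : P.eval 1 = 1 - (x : Ω) := by simp [P]
    rw [← h1]
    conv_lhs => rw [hprod]
    rw [Polynomial.eval_multiset_prod, Multiset.map_map]
    simp
  have hx' : W.valuation (1 - (x : Ω)) < 1 := by
    rw [Valuation.map_sub_swap]
    exact hx
  obtain ⟨r, hr, hr1⟩ : ∃ r ∈ P.roots, W.valuation (1 - r) < 1 := by
    by_contra hcon
    push Not at hcon
    have key : ∀ s : Multiset Ω, (∀ a ∈ s, 1 ≤ W.valuation (1 - a)) →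
        1 ≤ W.valuation (s.map fun a => 1 - a).prod := by
      intro s
      induction s using Multiset.induction_on with
      | empty => intro _; simp
      | cons a s ih =>
        intro h
        rw [Multiset.map_cons, Multiset.prod_cons, map_mul]
        exact one_le_mul (h a (Multiset.mem_cons_self a s))
          (ih fun b hb => h b (Multiset.mem_cons_of_mem hb))
    have h1 := key _ hcon
    rw [← heval] at h1
    exact not_lt.2 h1 hx'
  have hrn : r ^ n = (x : Ω) := by
    have h1 := (Polynomial.mem_roots'.1 hr).2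
    have h2 : r ^ n - (x : Ω) = 0 := by simpa [P] using h1
    exact sub_eq_zero.1 h2
  have hr0 : r ≠ 0 := by
    intro h
    rw [h, sub_zero, map_one] at hr1
    exact lt_irrefl _ hr1
  have hvr := hen_near W hr1
  have hfix : ∀ g : GG k Ω, D.s g r = r := by
    intro g
    set u : Ω := D.s g r / r with hu
    have hun : u ^ n = 1 := by
      rw [hu, div_pow, ← map_pow, hrn]
      have hxg : D.s g (x : Ω) = x := x.2 g (by intro a ha; exact absurd ha (Set.notMem_empty a))
      rw [hxg, ← hrn, div_self (pow_ne_zero _ hr0)]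
    have hu1 : W.valuation (1 - u) < 1 := by
      have e1 : r * (1 - u) = (r - 1) + (1 - D.s g r) := by
        rw [hu, mul_sub, mul_div_cancel₀ _ hr0]
        ring
      have e2 : W.valuation (1 - u) = W.valuation (r * (1 - u)) := by
        rw [map_mul, hvr, one_mul]
      rw [e2, e1]
      refine Valuation.map_add_lt _ ?_ ?_
      · rw [Valuation.map_sub_swap]
        exact hr1
      · have e3 : 1 - D.s g r = (D.s g).toRingEquiv (1 - r) := by
          show 1 - D.s g r = D.s g (1 - r)
          rw [map_sub, map_one]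
        rw [e3]
        exact hen_inv W (D.s g).toRingEquiv (fun y => hinv g y) _ hr1
    by_contra hne
    have hu_ne : u ≠ 1 := by
      intro h
      exact hne ((div_eq_one_iff_eq hr0).1 (hu ▸ h))
    have h1 : ∑ i ∈ Finset.range n, u ^ i = 0 := by
      have h2 := geom_sum_mul u n
      rw [hun, sub_self] at h2
      rcases mul_eq_zero.1 h2 with h3 | h3
      · exact h3
      · exact absurd (sub_eq_zero.1 h3) hu_ne
    have hvu := hen_near W hu1
    have h2 : ∀ i : ℕ, W.valuation (1 - u ^ i) < 1 := by
      intro i
      induction i with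
      | zero => simp
      | succ i ih =>
        have e : 1 - u ^ (i + 1) = (1 - u ^ i) + u ^ i * (1 - u) := by ring
        rw [e]
        refine Valuation.map_add_lt _ ih ?_
        rw [map_mul, map_pow, hvu, one_pow, one_mul]
        exact hu1
    have h3 : ∀ m : ℕ, W.valuation ((m : Ω) - ∑ i ∈ Finset.range m, u ^ i) < 1 := by
      intro m
      induction m with
      | zero => simp
      | succ m ih =>
        rw [Finset.sum_range_succ]
        have e : ((m + 1 : ℕ) : Ω) - (∑ i ∈ Finset.range m, u ^ i + u ^ m) =
            ((m : Ω) - ∑ i ∈ Finset.range m, u ^ i) + (1 - u ^ m) := by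
          push_cast
          ring
        rw [e]
        exact Valuation.map_add_lt _ ih (h2 m)
    have h4 := h3 n
    rw [h1, sub_zero] at h4
    have h5 : W.valuation ((n : Ω)⁻¹) ≤ 1 := by
      rw [W.valuation_le_one_iff]
      have := hk ((n : k)⁻¹)
      rwa [map_inv₀, map_natCast] at this
    have h6 : (1 : W.ValueGroup) = W.valuation ((n : Ω)⁻¹) * W.valuation (n : Ω) := by
      rw [← map_mul, inv_mul_cancel₀ (by exact_mod_cast hn.ne'), map_one]
    have h7 : W.valuation ((n : Ω)⁻¹) * W.valuation (n : Ω) < 1 :=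
      lt_of_le_of_lt (mul_le_of_le_one_left' h5) h4
    rw [← h6] at h7
    exact lt_irrefl _ h7
  exact ⟨⟨r, fun g _ => hfix g⟩, Subtype.ext hrn.symm⟩

end Pool.Agent.Helper14.BSC
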