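import Pool.Agent.Helper14.BSC.Stmts

/-!
# MP_8312c9_nt, modules PRU and POWF: one-units of `FF S` are `n`-th powers
-/

set_option autoImplicit false

namespace Pool.Agent.Helper14.BSC

section

variable {k Ω : Type} [Field k] [Field Ω] [Algebra k Ω] {p : ℕ} [Fact p.Prime]

theorem pru_mul (Lc : Loc k Ω p) (x y : Acl k Ω) : nm Lc (x * y) = nm Lc x * nm Lc y := by
  unfold nm
  rw [map_mul, norm_mul]

theorem pru_pow (Lc : Loc k Ω p) (x : Acl k Ω) (n : ℕ) : nm Lc (x ^ n) = nm Lc x ^ n := by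
  unfold nm
  rw [map_pow, norm_pow]

theorem pru_nonneg (Lc : Loc k Ω p) (x : Acl k Ω) : 0 ≤ nm Lc x := norm_nonneg _

theorem pru_one (Lc : Loc k Ω p) : nm Lc (1 : Acl k Ω) = 1 := by
  unfold nm
  rw [map_one, norm_one]

theorem pru_zero (Lc : Loc k Ω p) : nm Lc (0 : Acl k Ω) = 0 := by
  unfold nm
  rw [map_zero, norm_zero]

theorem pru_eq_zero (Lc : Loc k Ω p) (x : Acl k Ω) : nm Lc x = 0 ↔ x = 0 := by
  unfold nm
  rw [norm_eq_zero, map_eq_zero]

theorem pru_add (Lc : Loc k Ω p) (x y : Acl k Ω) : nm Lc (x + y) ≤ max (nm Lc x) (nm Lc y) := by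
  unfold nm
  rw [map_add]
  exact PadicComplex.isNonarchimedean p _ _

theorem pru_sub_comm (Lc : Loc k Ω p) (x y : Acl k Ω) : nm Lc (x - y) = nm Lc (y - x) := by
  unfold nm
  rw [map_sub, map_sub, norm_sub_rev]

theorem pru_iso (Lc : Loc k Ω p) {g : GG k Ω} (hg : g ∈ Stab Lc.S₁) (x : Acl k Ω) :
    nm Lc (g x) = nm Lc x := Lc.iso g hg x

/-- near `1` the norm is `1` -/
theorem pru_near (Lc : Loc k Ω p) {x : Acl k Ω} (h : nm Lc (1 - x) < 1) : nm Lc x = 1 := by
  apply le_antisymm
  · have h1 := pru_add Lc (x - 1) 1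
    rw [sub_add_cancel, pru_one, pru_sub_comm] at h1
    exact h1.trans (max_le h.le le_rfl)
  · by_contra h2
    push Not at h2
    have h1 := pru_add Lc (1 - x) x
    rw [sub_add_cancel, pru_one] at h1
    have := max_lt h h2
    linarith

theorem pru_nat (Lc : Loc k Ω p) {n : ℕ} (hn : ¬ p ∣ n) : nm Lc (n : Acl k Ω) = 1 := by
  unfold nm
  rw [map_natCast]
  have h1 : ((n : ℚ_[p]) : ℂ_[p]) = (n : ℂ_[p]) := by
    simp
  have h2 : ‖((n : ℚ_[p]) : ℂ_[p])‖ = ‖(n : ℚ_[p])‖ := PadicComplex.norm_extends' p _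
  rw [← h1, h2]
  exact Padic.norm_natCast_eq_one_iff.2 ((Nat.Prime.coprime_iff_not_dvd (Fact.out)).2 hn)

/-- an `n`-th root close to `1` -/
theorem pru_root [CharZero k] [IsAlgClosed Ω] (Lc : Loc k Ω p) {n : ℕ} (hn : 0 < n)
    (x : Acl k Ω) : ∃ r : Acl k Ω, r ^ n = x ∧ nm Lc (1 - r) ^ n ≤ nm Lc (1 - x) := by
  have : IsAlgClosed (Acl k Ω) := IsAlgClosure.isAlgClosed k
  let P : Polynomial (Acl k Ω) := Polynomial.X ^ n - Polynomial.C x
  have hmon : P.Monic := Polynomial.monic_X_pow_sub_C x hn.ne'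
  have hsplit := IsAlgClosed.splits P
  have hdeg : P.natDegree = n := Polynomial.natDegree_X_pow_sub_C
  have hprod : P = (P.roots.map fun a => Polynomial.X - Polynomial.C a).prod := by
    have := hsplit.eq_prod_roots
    rwa [hmon.leadingCoeff, map_one, one_mul] at this
  have hcard : P.roots.card = n := by
    rw [← hdeg]
    exact hsplit.natDegree_eq_card_roots.symm
  have heval : 1 - x = (P.roots.map fun a => 1 - a).prod := by
    have h1 : P.eval 1 = 1 - x := by simp [P]
    rw [← h1]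
    conv_lhs => rw [hprod]
    rw [Polynomial.eval_multiset_prod, Multiset.map_map]
    simp
  have hne : P.roots ≠ 0 := by
    intro h
    rw [h, Multiset.card_zero] at hcard
    omega
  classical
  -- the root closest to one
  obtain ⟨r, hr, hmin⟩ : ∃ r ∈ P.roots, ∀ a ∈ P.roots, nm Lc (1 - r) ≤ nm Lc (1 - a) := by
    obtain ⟨r, hr, hmin⟩ := (P.roots.toFinset).exists_min_image (fun a => nm Lc (1 - a)) (by
      obtain ⟨a, ha⟩ := Multiset.exists_mem_of_ne_zero hne
      exact ⟨a, Multiset.mem_toFinset.2 ha⟩)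
    exact ⟨r, Multiset.mem_toFinset.1 hr, fun a ha => hmin a (Multiset.mem_toFinset.2 ha)⟩
  refine ⟨r, ?_, ?_⟩
  · have h1 := (Polynomial.mem_roots'.1 hr).2
    have h2 : r ^ n - x = 0 := by simpa [P] using h1
    exact sub_eq_zero.1 h2
  · have h1 : nm Lc (1 - x) = (P.roots.map fun a => nm Lc (1 - a)).prod := by
      rw [heval]
      have key : ∀ s : Multiset (Acl k Ω), nm Lc (s.map fun a => 1 - a).prod =
          (s.map fun a => nm Lc (1 - a)).prod := by
        intro s
        induction s using Multiset.induction_on with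
        | empty => simp [pru_one]
        | cons a s ih => rw [Multiset.map_cons, Multiset.prod_cons, pru_mul, ih,
            Multiset.map_cons, Multiset.prod_cons]
      exact key _
    rw [h1]
    have key : ∀ s : Multiset (Acl k Ω), (∀ a ∈ s, nm Lc (1 - r) ≤ nm Lc (1 - a)) →
        nm Lc (1 - r) ^ s.card ≤ (s.map fun a => nm Lc (1 - a)).prod := by
      intro s
      induction s using Multiset.induction_on with
      | empty => intro _; simp
      | cons a s ih =>
        intro h
        rw [Multiset.card_cons, pow_succ, Multiset.map_cons, Multiset.prod_cons, mul_comm]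
        exact mul_le_mul (h a (Multiset.mem_cons_self a s))
          (ih fun b hb => h b (Multiset.mem_cons_of_mem hb)) (pow_nonneg (pru_nonneg _ _) _)
          (pru_nonneg _ _)
    have := key P.roots hmin
    rwa [hcard] at this

/-- a root close to `1` is fixed when there are no roots of unity close to `1` -/
theorem pru_fixed [CharZero k] [IsAlgClosed Ω] (Lc : Loc k Ω p) {S : Set (Acl k Ω)}
    (hS : Stab S ≤ Stab Lc.S₁) {n : ℕ} {x r : Acl k Ω} (hx : x ∈ FF S) (hr : r ^ n = x)
    (hr1 : nm Lc (1 - r) < 1)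
    (hroot : ∀ u : Acl k Ω, u ^ n = 1 → nm Lc (1 - u) ≤ nm Lc (1 - r) → u = 1) : r ∈ FF S := by
  intro g hg
  have hr0 : r ≠ 0 := by
    intro h
    rw [h, sub_zero, pru_one] at hr1
    exact lt_irrefl _ hr1
  have hnr := pru_near Lc hr1
  have h1 : g r ^ n = r ^ n := by rw [← map_pow, hr]; exact hx g hg
  have h2 : (g r / r) ^ n = 1 := by
    rw [div_pow, h1, div_self (pow_ne_zero _ hr0)]
  have h3 : nm Lc (1 - g r / r) ≤ nm Lc (1 - r) := by
    have e1 : r * (1 - g r / r) = (1 - g r) + (r - 1) := by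
      rw [mul_sub, mul_div_cancel₀ _ hr0]
      ring
    have e2 : nm Lc (1 - g r / r) = nm Lc (r * (1 - g r / r)) := by
      rw [pru_mul, hnr, one_mul]
    rw [e2, e1]
    refine (pru_add _ _ _).trans (max_le ?_ ?_)
    · have e3 : 1 - g r = g (1 - r) := by rw [map_sub, map_one]
      rw [e3, pru_iso Lc (hS hg)]
    · rw [pru_sub_comm]
  have h4 := hroot _ h2 h3
  rwa [div_eq_one_iff_eq hr0] at h4

end

/-- **Module PRU.** -/
theorem st_PRU : ST_PRU := by
  intro k Ω _ _ _ _ _ p _ Lc S hS n hn x hx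
  have hn0 : 0 < n := by
    rcases Nat.eq_zero_or_pos n with h | h
    · exact absurd (h ▸ dvd_zero p) hn
    · exact h
  obtain ⟨r, hr, hrx⟩ := pru_root Lc hn0 (x : Acl k Ω)
  have hx' : nm Lc (1 - (x : Acl k Ω)) < 1 := by rw [pru_sub_comm]; exact hx
  have hr1 : nm Lc (1 - r) < 1 := by
    by_contra h
    push Not at h
    have := one_le_pow₀ h (n := n)
    linarith
  have hfix : r ∈ FF S := by
    refine pru_fixed Lc hS x.2 hr hr1 ?_
    intro u hu hu1
    by_contra hne
    have h1 : ∑ i ∈ Finset.range n, u ^ i = 0 := by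
      have h2 := geom_sum_mul u n
      rw [hu, sub_self] at h2
      rcases mul_eq_zero.1 h2 with h3 | h3
      · exact h3
      · exact absurd (sub_eq_zero.1 h3) hne
    have hlt := lt_of_le_of_lt hu1 hr1
    have h2 : ∀ i : ℕ, nm Lc (1 - u ^ i) < 1 := by
      intro i
      induction i with
      | zero => simp [pru_zero]
      | succ i ih =>
        have e : 1 - u ^ (i + 1) = (1 - u ^ i) + u ^ i * (1 - u) := by ring
        rw [e]
        refine lt_of_le_of_lt (pru_add _ _ _) (max_lt ih ?_)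
        rw [pru_mul, pru_pow, pru_near Lc hlt, one_pow, one_mul]
        exact hlt
    have h3 : ∀ m : ℕ, nm Lc ((m : Acl k Ω) - ∑ i ∈ Finset.range m, u ^ i) < 1 := by
      intro m
      induction m with
      | zero => simp [pru_zero]
      | succ m ih =>
        rw [Finset.sum_range_succ]
        have e : ((m + 1 : ℕ) : Acl k Ω) - (∑ i ∈ Finset.range m, u ^ i + u ^ m) =
            ((m : Acl k Ω) - ∑ i ∈ Finset.range m, u ^ i) + (1 - u ^ m) := by
          push_cast
          ring
        rw [e]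
        exact lt_of_le_of_lt (pru_add _ _ _) (max_lt ih (h2 m))
    have h4 := h3 n
    rw [h1, sub_zero, pru_nat Lc hn] at h4
    exact lt_irrefl _ h4
  exact ⟨⟨r, hfix⟩, Subtype.ext hr.symm⟩

/-- **Module POWF.** -/
theorem st_POWF : ST_POWF := by
  intro k Ω _ _ _ _ _ p _ Lc M hM
  classical
  have hfin : {u : Acl k Ω | u ^ M = 1}.Finite := by
    have h1 := (Polynomial.nthRootsFinset M (1 : Acl k Ω)).finite_toSet
    refine h1.subset ?_
    intro u hu
    rw [Finset.mem_coe, Polynomial.mem_nthRootsFinset hM]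
    exact hu
  obtain ⟨ε, hε0, hε1, hε⟩ : ∃ ε : ℝ, 0 < ε ∧ ε ≤ 1 ∧
      ∀ u : Acl k Ω, u ^ M = 1 → nm Lc (1 - u) < ε → u = 1 := by
    have key : ∀ s : Finset (Acl k Ω), ∃ ε : ℝ, 0 < ε ∧ ε ≤ 1 ∧
        ∀ u ∈ s, nm Lc (1 - u) < ε → u = 1 := by
      intro s
      induction s using Finset.induction_on with
      | empty => exact ⟨1, one_pos, le_rfl, fun u hu => absurd hu (Finset.notMem_empty u)⟩
      | insert a s _ ih =>
        obtain ⟨ε, h1, h2, h3⟩ := ih
        by_cases ha : a = 1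
        · refine ⟨ε, h1, h2, ?_⟩
          intro u hu hlt
          rcases Finset.mem_insert.1 hu with rfl | hu
          · exact ha
          · exact h3 u hu hlt
        · have hpos : 0 < nm Lc (1 - a) := by
            refine lt_of_le_of_ne (pru_nonneg _ _) ?_
            intro h
            exact ha (sub_eq_zero.1 ((pru_eq_zero Lc _).1 h.symm)).symm
          refine ⟨min ε (nm Lc (1 - a)), lt_min h1 hpos, (min_le_left _ _).trans h2, ?_⟩
          intro u hu hlt
          rcases Finset.mem_insert.1 hu with rfl | hu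
          · exact absurd hlt (not_lt.2 (min_le_right _ _))
          · exact h3 u hu (lt_of_lt_of_le hlt (min_le_left _ _))
    obtain ⟨ε, h1, h2, h3⟩ := key hfin.toFinset
    exact ⟨ε, h1, h2, fun u hu => h3 u (hfin.mem_toFinset.2 hu)⟩
  refine ⟨ε ^ M, pow_pos hε0 M, ?_⟩
  intro x hx
  obtain ⟨r, hr, hrx⟩ := pru_root Lc hM (x : Acl k Ω)
  have hx' : nm Lc (1 - (x : Acl k Ω)) < ε ^ M := by rw [pru_sub_comm]; exact hx
  have hrε : nm Lc (1 - r) < ε := by
    by_contra h
    push Not at h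
    have := pow_le_pow_left₀ hε0.le h M
    linarith
  have hfix : r ∈ FF Lc.S₁ :=
    pru_fixed Lc le_rfl x.2 hr (lt_of_lt_of_le hrε hε1)
      (fun u hu hu1 => hε u hu (lt_of_le_of_lt hu1 hrε))
  exact ⟨⟨r, hfix⟩, Subtype.ext hr.symm⟩

end Pool.Agent.Helper14.BSC
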